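import Pool.Agent.helper37.NF.Spec

/-!
# BG1 (project NF)
-/

set_option autoImplicit false

namespace Pool.Agent.helper37.NF

open Finset Pool.Agent.NK

theorem BG1_rho_pos (n : ℕ) : 0 < rho (n : ℝ) := by
  unfold rho
  have h : (0 : ℝ) ≤ (n : ℝ) := Nat.cast_nonneg n
  positivity

theorem BG1 (h1 : AVG_stmt) (h2 : BAS_stmt) (h3 : REC_stmt) (h4 : LCX_stmt) : BG1_stmt := by
  intro a b i j s hi hj hs hn
  refine h1 i j (4 * (i + j)) _ (by omega) (by omega) (by omega) ?_ a b hn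
  intro a b hab
  have e1 : (a.choose i : ℝ) * (b.choose j : ℝ) ≤ 28 * (cc (s + 1) : ℝ) := by
    have h5 := h2 a b i j (by omega) (by omega) hab
    have h6 := h4 i j hi hj
    have h7 : i + j - 2 = s + 1 := by omega
    rw [h7] at h6
    exact_mod_cast h5.trans h6
  have e2 : (((4 * (i + j)).choose (i + j) : ℕ) : ℝ) = (cc (s + 2 + 1) : ℝ) := by
    rw [hs]
    rfl
  have e3 := h3 (s + 2)
  have e4 := h3 (s + 1)
  have p1 := BG1_rho_pos (s + 1)
  have p2 := BG1_rho_pos (s + 2)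
  rw [e2, e3, e4]
  refine e1.trans (le_of_eq ?_)
  field_simp

end Pool.Agent.helper37.NF
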