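import Pool.Agent.helper4.NF.SpecB

set_option autoImplicit false

open Complex MeasureTheory

namespace Pool.Agent.NF

open Pool.Agent.helper84.DM Pool.Agent.helper78.ED Pool.Agent.DH Pool.Agent.ZD

theorem LB2_inner (hEXA : EXA_stmt) (W : Finset ℝ) (X : ℝ) (P : ℝ → ℂ) (NE : ℕ) (bE : ℕ → ℂ)
    (τ : ℝ) (l : ℕ) (hl : 1 ≤ l) :
    ∑ t ∈ W, (if t = τ then 0 else BX X (τ - t) *
      (P t * PP NE bE t * ex (-(t * Real.log l)))) =
      ∑ n ∈ Finset.Ioc NE (4 * NE), bE n * FK W X P τ (n * l) := by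
  obtain ⟨-, hadd, -, -, -, hDG, -⟩ := hEXA
  have h0A : 0 ∉ Finset.Ioc NE (4 * NE) := by simp
  unfold FK
  simp_rw [Finset.mul_sum]
  rw [Finset.sum_comm]
  refine Finset.sum_congr rfl fun t _ => ?_
  by_cases htτ : t = τ
  · simp [htτ]
  · simp only [if_neg htτ]
    unfold PP
    rw [hDG _ _ _ h0A, Finset.mul_sum, Finset.sum_mul, Finset.mul_sum]
    refine Finset.sum_congr rfl fun n hn => ?_
    rw [Finset.mem_Ioc] at hn
    have hn0 : (n : ℝ) ≠ 0 := by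
      have : 0 < n := by omega
      exact_mod_cast this.ne'
    have hl0 : (l : ℝ) ≠ 0 := by
      have : 0 < l := by omega
      exact_mod_cast this.ne'
    have h1 : Real.log ((n * l : ℕ) : ℝ) = Real.log n + Real.log l := by
      push_cast
      rw [Real.log_mul hn0 hl0]
    rw [h1, show -(t * (Real.log n + Real.log l)) = -(t * Real.log n) + -(t * Real.log l) by ring,
      hadd]
    ring

theorem LB2_cs (A : Finset ℕ) (b F : ℕ → ℂ) (hb : ∀ n ∈ A, ‖b n‖ ≤ 1) :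
    ‖∑ n ∈ A, b n * F n‖ ^ 2 ≤ (A.card : ℝ) * ∑ n ∈ A, ‖F n‖ ^ 2 := by
  have h1 : ‖∑ n ∈ A, b n * F n‖ ≤ ∑ n ∈ A, ‖F n‖ := by
    refine (norm_sum_le _ _).trans (Finset.sum_le_sum fun n hn => ?_)
    rw [norm_mul]
    exact mul_le_of_le_one_left (norm_nonneg _) (hb n hn)
  have h2 : (∑ n ∈ A, ‖F n‖) ^ 2 ≤ (A.card : ℝ) * ∑ n ∈ A, ‖F n‖ ^ 2 := sq_sum_le_card_mul_sum_sq
  exact (pow_le_pow_left₀ (norm_nonneg _) h1 2).trans h2

theorem LB2_fib (NE L : ℕ) (k : ℕ) (hk : 1 ≤ k) :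
    ((((Finset.Ioc L (2 * L)) ×ˢ (Finset.Ioc NE (4 * NE))).filter
      (fun x => x.2 * x.1 = k)).card : ℝ) ≤ d k := by
  unfold d
  have h1 : (((Finset.Ioc L (2 * L)) ×ˢ (Finset.Ioc NE (4 * NE))).filter
      (fun x => x.2 * x.1 = k)).card ≤ k.divisors.card := by
    refine Finset.card_le_card_of_injOn (fun x => x.2) ?_ ?_
    · intro x hx
      rw [Finset.mem_coe, Finset.mem_filter] at hx
      rw [Finset.mem_coe, Nat.mem_divisors]
      exact ⟨⟨x.1, hx.2.symm⟩, by omega⟩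
    · intro x hx y hy hxy
      rw [Finset.mem_coe, Finset.mem_filter] at hx hy
      simp only at hxy
      have h3 : x.2 * x.1 = x.2 * y.1 := by rw [hx.2, hxy, hy.2]
      have h4 : 0 < x.2 := by
        rcases Nat.eq_zero_or_pos x.2 with h | h
        · rw [h, zero_mul] at hx
          omega
        · exact h
      have h5 : x.1 = y.1 := Nat.eq_of_mul_eq_mul_left h4 h3
      exact Prod.ext h5 hxy
  exact_mod_cast h1

theorem LB2 (hEXA : EXA_stmt) (hBPH : BPH_stmt) : LB2_stmt := by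
  intro W X P NE L bE D τ hNE hL hb hD
  have hNL : 1 ≤ NE * L := Nat.mul_pos hNE hL
  have hD0 : 0 ≤ D := by
    have h1 := hD 1 le_rfl (by omega)
    have h2 : (0 : ℝ) ≤ d 1 := by unfold d; positivity
    linarith
  have hNL0 : (0 : ℝ) < (NE : ℝ) * L := by
    have : (0 : ℝ) < ((NE * L : ℕ) : ℝ) := by exact_mod_cast hNL
    simpa using this
  have h1 : ∀ l ∈ Finset.Ioc L (2 * L), ‖∑ t ∈ W, if t = τ then 0 else BX X (τ - t) *
      (P t * PP NE bE t * ex (-(t * Real.log l)))‖ ^ 2 ≤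
      3 * NE * ∑ n ∈ Finset.Ioc NE (4 * NE), ‖FK W X P τ (n * l)‖ ^ 2 := by
    intro l hl
    rw [Finset.mem_Ioc] at hl
    rw [LB2_inner hEXA W X P NE bE τ l (by omega)]
    refine (LB2_cs _ bE (fun n => FK W X P τ (n * l)) hb).trans (le_of_eq ?_)
    have h2 : ((Finset.Ioc NE (4 * NE)).card : ℝ) = 3 * NE := by
      rw [Nat.card_Ioc]
      have : 4 * NE - NE = 3 * NE := by omega
      rw [this]
      push_cast
      ring
    rw [h2]
  refine (Finset.sum_le_sum h1).trans ?_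
  rw [← Finset.mul_sum, mul_assoc (3 * (NE : ℝ))]
  refine mul_le_mul_of_nonneg_left ?_ (by positivity)
  -- group by the product
  set S := (Finset.Ioc L (2 * L)) ×ˢ (Finset.Ioc NE (4 * NE)) with hS
  have h3 : ∑ l ∈ Finset.Ioc L (2 * L), ∑ n ∈ Finset.Ioc NE (4 * NE), ‖FK W X P τ (n * l)‖ ^ 2 =
      ∑ x ∈ S, ‖FK W X P τ (x.2 * x.1)‖ ^ 2 := by
    rw [hS, Finset.sum_product]
  have h4 : ∀ x ∈ S, x.2 * x.1 ∈ Finset.Ioc (NE * L) (8 * (NE * L)) := by
    intro x hx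
    rw [hS, Finset.mem_product, Finset.mem_Ioc, Finset.mem_Ioc] at hx
    rw [Finset.mem_Ioc]
    obtain ⟨⟨a1, a2⟩, a3, a4⟩ := hx
    constructor
    · exact Nat.mul_lt_mul'' a3 a1
    · calc x.2 * x.1 ≤ (4 * NE) * (2 * L) := Nat.mul_le_mul a4 a2
        _ = 8 * (NE * L) := by ring
  rw [h3, ← Finset.sum_fiberwise_of_maps_to h4]
  have h5 : ∀ k ∈ Finset.Ioc (NE * L) (8 * (NE * L)),
      ∑ x ∈ S with x.2 * x.1 = k, ‖FK W X P τ (x.2 * x.1)‖ ^ 2 ≤
        D * (Phi ((k : ℝ) / ((NE : ℝ) * L)) * ‖FK W X P τ k‖ ^ 2) := by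
    intro k hk
    rw [Finset.mem_Ioc] at hk
    have h6 : ∑ x ∈ S with x.2 * x.1 = k, ‖FK W X P τ (x.2 * x.1)‖ ^ 2 =
        ∑ x ∈ S with x.2 * x.1 = k, ‖FK W X P τ k‖ ^ 2 := by
      refine Finset.sum_congr rfl fun x hx => ?_
      rw [(Finset.mem_filter.mp hx).2]
    have h7 : Phi ((k : ℝ) / ((NE : ℝ) * L)) = 1 := by
      apply hBPH.2.1
      · rw [le_div_iff₀ hNL0, one_mul]
        exact_mod_cast hk.1.le
      · rw [div_le_iff₀ hNL0]
        have h8 : (k : ℝ) ≤ ((8 * (NE * L) : ℕ) : ℝ) := by exact_mod_cast hk.2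
        push_cast at h8
        linarith
    rw [h6, Finset.sum_const, nsmul_eq_mul, h7, one_mul]
    refine mul_le_mul_of_nonneg_right ?_ (by positivity)
    exact (LB2_fib NE L k (by omega)).trans (hD k (by omega) (by omega))
  refine (Finset.sum_le_sum h5).trans ?_
  rw [← Finset.mul_sum]
  refine mul_le_mul_of_nonneg_left ?_ hD0
  unfold qk
  refine Finset.sum_le_sum_of_subset_of_nonneg ?_ ?_
  · intro k hk
    rw [Finset.mem_Ioc] at hk
    rw [Finset.mem_Icc]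
    refine ⟨by omega, ?_⟩
    rw [Nat.le_floor_iff (by positivity)]
    have h8 : (k : ℝ) ≤ ((8 * (NE * L) : ℕ) : ℝ) := by exact_mod_cast hk.2
    push_cast at h8
    linarith
  · intro k _ _
    exact mul_nonneg (hBPH.1 _).1 (by positivity)

end Pool.Agent.NF
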